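import Mathlib
import Pool.Agent.J6H42.LocalLoop.Core

/-!
# The local loop lemma for odd cycles under absorption

Let `R` be a symmetric binary relation on a (possibly infinite) set `A` with an odd cycle
`(a₁, …, a_l)`, and let `f` be an idempotent operation on `A`, compatible with `R`, such that the
neighbourhood `a₁^{+R}` absorbs `{a₁}` with respect to `f`.  Then `R` contains a loop.

Idea of the proof: elements of `A` are produced as values of large `n`-ary trees of `f` with leaves
on the odd cycle.  The leaves are coloured by a finite deterministic automaton reading the address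
of the leaf.  The automaton walks around the odd cycle; it is allowed to pause at `a₁` for at most
one of the `n` possible next letters (this is where absorption is used).  It remembers a window of
bounded length, pauses while the window is periodic with small period, and otherwise performs
resynchronising walks triggered by non-periodic windows, ordered by a priority.  All long words
synchronise the automaton, and this forces a loop at the value of the tree.
-/

namespace Pool.Agent.Results.MP_511665_al.LocalLoopOddCycle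

universe u

variable {A : Type u}

/-- The set `a^{+R} = {b : (a, b) ∈ R}`. -/
def nbhd (R : A → A → Prop) (a : A) : Set A := {b | R a b}

/-- The `n`-ary operation `f` is idempotent: `f(x, …, x) = x` for all `x`. -/
def IsIdempotent {n : ℕ} (f : (Fin n → A) → A) : Prop := ∀ x : A, f (fun _ => x) = x

/-- The `n`-ary operation `f` is compatible with `R`: if `(x_i, y_i) ∈ R` for all `i` then
`(f(x₁, …, x_n), f(y₁, …, y_n)) ∈ R`. -/
def IsCompatible {n : ℕ} (f : (Fin n → A) → A) (R : A → A → Prop) : Prop :=
  ∀ x y : Fin n → A, (∀ i, R (x i) (y i)) → R (f x) (f y)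

/-- `B` absorbs `C` with respect to `f`: for every position `j`, all `b₁, …, b_n ∈ B` and all
`c ∈ C` we have `f(b₁, …, b_{j-1}, c, b_{j+1}, …, b_n) ∈ B`. -/
def Absorbs {n : ℕ} (f : (Fin n → A) → A) (B C : Set A) : Prop :=
  ∀ (j : Fin n) (b : Fin n → A) (c : A), (∀ i, b i ∈ B) → c ∈ C →
    f (Function.update b j c) ∈ B

/-- `(a₀, …, a_{l-1})` is an odd cycle of `R`: `l ≥ 3` is odd, the entries are distinct, and
consecutive entries (cyclically) are related by `R`. -/
structure IsOddCycle (R : A → A → Prop) {l : ℕ} (a : Fin l → A) : Prop where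
  odd : Odd l
  three_le : 3 ≤ l
  injective : Function.Injective a
  adj : ∀ i j : Fin l, (j : ℕ) = ((i : ℕ) + 1) % l → R (a i) (a j)

/-- A symmetric relation `R` with an odd cycle `(a₀, …, a_{l-1})`, which is compatible with an
idempotent operation `f` of arity `n ≥ 1` such that `a₀^{+R}` absorbs `{a₀}` with respect to `f`,
contains a loop. -/
theorem result (R : A → A → Prop) (hsymm : ∀ x y, R x y → R y x)
    {l : ℕ} [NeZero l] (a : Fin l → A) (ha : IsOddCycle R a)
    {n : ℕ} (hn : 1 ≤ n) (f : (Fin n → A) → A) (hidem : IsIdempotent f)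
    (hcomp : IsCompatible f R) (habs : Absorbs f (nbhd R (a 0)) {a 0}) :
    ∃ x : A, R x x := by
  have hl0 : (0 : ℤ) < (l : ℤ) := by exact_mod_cast Nat.pos_of_ne_zero (NeZero.ne l)
  have hb : ∀ k : ℤ, (k % (l : ℤ)).toNat < l := by
    intro k
    have h1 := Int.emod_nonneg k hl0.ne'
    have h2 := Int.emod_lt_of_pos k hl0
    omega
  have hα0 : a ⟨((0 : ℤ) % (l : ℤ)).toNat, hb 0⟩ = a 0 := by
    congr 1
  have hR : ∀ k : ℤ, R (a ⟨(k % (l : ℤ)).toNat, hb k⟩) (a ⟨((k + 1) % (l : ℤ)).toNat, hb (k+1)⟩) := by
    intro k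
    apply ha.adj
    show ((k + 1) % (l : ℤ)).toNat = ((k % (l : ℤ)).toNat + 1) % l
    have h1 := Int.emod_nonneg k hl0.ne'
    have h3 := Int.emod_nonneg (k + 1) hl0.ne'
    have h4 : ((((k % (l : ℤ)).toNat + 1) % l : ℕ) : ℤ) = (k + 1) % (l : ℤ) := by
      push_cast
      rw [Int.toNat_of_nonneg h1, Int.emod_add_emod]
    have h5 : ((((k + 1) % (l : ℤ)).toNat : ℕ) : ℤ) = (k + 1) % (l : ℤ) := Int.toNat_of_nonneg h3
    exact_mod_cast h5.trans h4.symm
  refine Pool.Agent.J6H42.LocalLoop.loop_of_walk (l := l) hn ha.odd R hsymm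
    (fun k => a ⟨(k % (l : ℤ)).toNat, hb k⟩) ?_ hR f hidem hcomp ?_
  · intro k
    show a _ = a _
    congr 1
    ext
    simp
  · intro j
    have h1 : a ⟨((1 : ℤ) % (l : ℤ)).toNat, hb 1⟩ ∈ nbhd R (a 0) := by
      have := hR 0
      rw [hα0] at this
      exact this
    show R (a ⟨((0 : ℤ) % (l : ℤ)).toNat, hb 0⟩) (f _)
    rw [hα0]
    exact habs j (fun _ => a ⟨((1 : ℤ) % (l : ℤ)).toNat, hb 1⟩) (a 0) (fun _ => h1) rfl

end Pool.Agent.Results.MP_511665_al.LocalLoopOddCycle
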